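import Mathlib

/-! In `SL₂(ℤ₃)` every normal subgroup is finite or of finite index. -/

set_option autoImplicit false

namespace Pool.Agent.Results.MP_847604_al.SL2

open Matrix Topology

instance : Fact (Nat.Prime 3) := ⟨by norm_num⟩

abbrev R := ℤ_[3]
abbrev G := SpecialLinearGroup (Fin 2) R

noncomputable section

def mk (a b c d : R) (h : a * d - b * c = 1) : G := ⟨!![a, b; c, d], by simp [det_fin_two, h]⟩
def U (t : R) : G := mk 1 t 0 1 (by ring)
def L (t : R) : G := mk 1 0 t 1 (by ring)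
def w : G := mk 0 1 (-1) 0 (by ring)

theorem ex (g : G) : ∃ h, g = mk (g 0 0) (g 0 1) (g 1 0) (g 1 1) h :=
  ⟨by have := g.2; rwa [det_fin_two] at this, Subtype.ext (eta_fin_two _)⟩

theorem mk_mul {a b c d a' b' c' d' : R} (h h') : mk a b c d h * mk a' b' c' d' h' =
    mk (a * a' + b * c') (a * b' + b * d') (c * a' + d * c') (c * b' + d * d')
      (by linear_combination (a' * d' - b' * c') * h + h') :=
  Subtype.ext (mul_fin_two _ _ _ _ _ _ _ _)

theorem mk_inv {a b c d : R} (h) : (mk a b c d h)⁻¹ = mk d (-b) (-c) a (by linear_combination h) :=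
  Subtype.ext (by simp [mk, SpecialLinearGroup.coe_inv, adjugate_fin_two])

theorem mk_eq {a b c d a' b' c' d' : R} (h h') (e1 : a = a') (e2 : b = b') (e3 : c = c')
    (e4 : d = d') : mk a b c d h = mk a' b' c' d' h' := by
  subst e1 e2 e3 e4; rfl

theorem n3 (x : R) : ‖3 * x‖ < 1 := by
  have h : ‖((3 : ℕ) : R)‖ = _ := PadicInt.norm_p
  have := PadicInt.norm_le_one x
  rw [norm_mul, show (3 : R) = ((3 : ℕ) : R) from rfl, h]
  norm_num
  linarith

theorem unit (x : R) (h : ‖x‖ < 1) : ∃ s, (1 + x) * s = 1 := by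
  have := IsLocalRing.isUnit_one_sub_self_of_mem_nonunits (-x)
    (PadicInt.mem_nonunits.2 (by rwa [norm_neg]))
  rw [sub_neg_eq_add] at this
  exact this.exists_right_inv

theorem upper (N : Subgroup G) [hN : N.Normal] (a b c d : R) (e) (hg : mk a b c d e ∈ N)
    (hc : c ≠ 0) : ∃ m : R, m ≠ 0 ∧ ∀ y, U (m * y) ∈ N := by
  obtain ⟨s, hs⟩ := unit _ (n3 c)
  have hk := mul_mem (hN.conj_mem _ hg (U (3 * (2 + 3 * c) * d) * mk (1 + 3 * c) 0 0 s
    (by linear_combination hs))) (inv_mem hg)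
  simp only [U, mk_mul, mk_inv] at hk
  obtain ⟨α, β, γ, δ, kd, hk, h1, h2⟩ : ∃ α β γ δ kd, mk α β γ δ kd ∈ N ∧ γ = 0 ∧ δ = s ^ 2 :=
    ⟨_, _, _, _, _, hk, by linear_combination (c * d * (1 + 3 * c) * s) * hs,
      by linear_combination s ^ 2 * e - (a * d * (1 + 3 * c) * s) * hs⟩
  subst h1 h2
  refine ⟨α ^ 2 - 1, fun h0 => ?_, fun y => ?_⟩
  · obtain ⟨u, hu⟩ := unit _ (n3 (-1 - c))
    obtain ⟨v, hv⟩ := unit _ (n3 (-1 - 2 * c - 3 * c ^ 2))
    have e : α = (1 + 3 * c) ^ 2 := by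
      linear_combination (1 + 3 * c) ^ 2 * kd - α * ((1 + 3 * c) * s + 1) * hs
    rw [e] at h0
    have : 3 * c = 0 := by
      linear_combination u * v * h0 - 3 * c * hv - 3 * c * (1 + 3 * (-1 - 2 * c - 3 * c ^ 2)) * v * hu
    exact hc ((mul_eq_zero.1 this).resolve_left (by norm_num))
  · have := mul_mem hk (hN.conj_mem _ (inv_mem hk) (U y))
    simp only [U, mk_mul, mk_inv] at this
    refine (mk_eq _ _ ?_ ?_ ?_ ?_).subst (motive := (· ∈ N)) this
    · linear_combination kd
    · linear_combination -y * kd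
    · ring
    · linear_combination kd

theorem isOpen (N : Subgroup G) [hN : N.Normal] (m : R) (hm : m ≠ 0) (hU : ∀ y, U (m * y) ∈ N) :
    IsOpen (N : Set G) := by
  have hL : ∀ y, L (m * y) ∈ N := fun y => by
    have := hN.conj_mem _ (hU (-y)) w
    simp only [U, w, mk_mul, mk_inv] at this
    exact (mk_eq _ _ (by ring) (by ring) (by ring) (by ring)).subst (motive := (· ∈ N)) this
  have dv : ∀ x : R, ‖x‖ < ‖m * m‖ → ∃ y, x = m * m * y := fun x hx => by
    rcases ValuationRing.dvd_total (m * m) x with h | ⟨y, hy⟩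
    · exact h
    · rw [hy, norm_mul] at hx
      nlinarith [norm_nonneg x, PadicInt.norm_le_one y]
  have hp : 0 < ‖m * m‖ := norm_pos_iff.2 (mul_ne_zero hm hm)
  have hc : ∀ i j, Continuous fun g : G => g i j := fun i j =>
    (continuous_apply j).comp (SpecialLinearGroup.continuous_apply id continuous_id i)
  refine N.isOpen_of_mem_nhds (g := 1) (Filter.mem_of_superset (IsOpen.mem_nhds
    (s := {g : G | ‖g 0 0 - 1‖ < ‖m * m‖} ∩ ({g | ‖g 0 1‖ < ‖m * m‖} ∩ {g | ‖g 1 0‖ < ‖m * m‖}))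
    ?_ ?_) ?_)
  · exact (isOpen_lt (by fun_prop) continuous_const).inter
      ((isOpen_lt (by fun_prop) continuous_const).inter (isOpen_lt (by fun_prop) continuous_const))
  · simpa using hm
  rintro g ⟨h1, h2, h3⟩
  obtain ⟨a, ha⟩ := unit _ (lt_of_lt_of_le h1 (PadicInt.norm_le_one _))
  obtain ⟨x, hx⟩ := dv _ h1
  obtain ⟨y, hy⟩ := dv _ h2
  obtain ⟨z, hz⟩ := dv _ h3
  obtain ⟨d, hg⟩ := ex g
  have hx' : g 0 0 = 1 + m * m * x := by linear_combination hx
  rw [hx] at ha
  have := mul_mem (mul_mem (hL (m * z * a)) (mul_mem (mul_mem (inv_mem (hL (x * a)))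
    (mul_mem (hU 1) (hL x))) (inv_mem (hU a)))) (hU (m * y * a))
  simp only [U, L, mk_mul, mk_inv] at this
  rw [SetLike.mem_coe, hg]
  refine (mk_eq _ _ ?_ ?_ ?_ ?_).subst (motive := (· ∈ N)) this
  all_goals rw [hx', hy, hz] at d
  · rw [hx']; ring
  · rw [hy]; linear_combination (m * m * y - m) * ha
  · rw [hz]; linear_combination (m * m * z - m * x) * ha
  · grind

end

theorem result : ∃ (G : Type) (_ : Group G) (_ : TopologicalSpace G), NonarchimedeanGroup G ∧
    CompactSpace G ∧ TopologicalSpace.MetrizableSpace G ∧ Uncountable G ∧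
    ∀ N : Subgroup G, N.Normal → Finite N ∨ Finite (G ⧸ N) := by
  have he := SpecialLinearGroup.isClosedEmbedding_val (n := Fin 2) (R := R)
  haveI : CompactSpace (Matrix (Fin 2) (Fin 2) R) := Pi.compactSpace
  haveI : CompactSpace G := he.compactSpace
  haveI : TopologicalSpace.MetrizableSpace (Matrix (Fin 2) (Fin 2) R) :=
    inferInstanceAs (TopologicalSpace.MetrizableSpace (Fin 2 → Fin 2 → R))
  haveI : TotallyDisconnectedSpace (Matrix (Fin 2) (Fin 2) R) :=
    inferInstanceAs (TotallyDisconnectedSpace (Fin 2 → Fin 2 → R))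
  haveI : TotallyDisconnectedSpace G :=
    ⟨he.isEmbedding.isTotallyDisconnected (isTotallyDisconnected_of_totallyDisconnectedSpace _)⟩
  haveI : TopologicalSpace.MetrizableSpace G := he.isEmbedding.metrizableSpace
  refine ⟨G, inferInstance, inferInstance, ⟨fun V hV => ?_⟩, inferInstance, inferInstance, ?_,
    fun N hN => ?_⟩
  · obtain ⟨W, h1, h2, h3⟩ := mem_nhds_iff.1 hV
    obtain ⟨H, hH⟩ := ProfiniteGrp.exist_openNormalSubgroup_sub_open_nhds_of_one h2 h3
    exact ⟨H.toOpenSubgroup, hH.trans h1⟩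
  · haveI : Uncountable R := by
      by_contra h
      haveI : Countable R := not_uncountable_iff.1 h
      obtain ⟨x, y, hy⟩ := nonempty_interior_of_iUnion_of_closed (f := fun x : R => {x})
        (fun _ => isClosed_singleton) (by ext; simp)
      obtain ⟨ε, h1, h2⟩ := Metric.mem_nhds_iff.1 (mem_interior_iff_mem_nhds.1 hy)
      obtain ⟨n, hn⟩ := exists_pow_lt_of_lt_one h1 (n3 1)
      have e1 : y = x := Set.mem_singleton_iff.1 (interior_subset hy)
      have e2 : y + (3 * 1) ^ n = x := h2 (by simpa [dist_eq_norm] using hn)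
      have : ((3 : R) * 1) ^ n = 0 := by linear_combination e2 - e1
      simp at this
    exact Function.Injective.uncountable (f := U) fun s t h => congrArg (fun g : G => g 0 1) h
  by_cases h : ∃ a b c d e, mk a b c d e ∈ N ∧ c ≠ 0
  · obtain ⟨a, b, c, d, e, hg, hc⟩ := h
    obtain ⟨m, hm, hU⟩ := upper N a b c d e hg hc
    exact Or.inr (N.quotient_finite_of_isOpen (isOpen N m hm hU))
  push Not at h
  refine Or.inl (Set.Finite.subset (Set.toFinite {mk 1 0 0 1 (by ring), mk (-1) 0 0 (-1) (by ring)})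
    fun g hg => ?_)
  obtain ⟨a, b, c, d, e, rfl⟩ : ∃ a b c d e, g = mk a b c d e := ⟨_, _, _, _, ex g⟩
  have h1 := h _ _ _ _ _ hg
  have h2 := hN.conj_mem _ hg w
  have h3 := hN.conj_mem _ hg (L 1)
  simp only [L, w, mk_mul, mk_inv] at h2 h3
  have h5 : b = 0 := by linear_combination -h _ _ _ _ _ h2
  have h4 : d = a := by linear_combination -h _ _ _ _ _ h3 + h1 - h5
  clear h2 h3
  subst h1 h5 h4
  rcases mul_self_eq_one_iff.1 (show d * d = 1 by linear_combination e) with rfl | rfl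
  · exact Or.inl rfl
  · exact Or.inr rfl

end Pool.Agent.Results.MP_847604_al.SL2
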